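import Pool.Agent.Work.MP_267827_an.AtMost

/-! Former hand-in (exactly `n` vertices, no straight angle), here derived from the statement for
polygons with at most `n` vertices. -/

set_option autoImplicit false

namespace Pool.Agent.Work.MP_267827_an.Parked.Full

open Set in
theorem simpleW_of {n : ℕ} (hn : 3 ≤ n) (v : Fin n → EuclideanSpace ℝ (Fin 2)) (hv : Simple v) :
    SimpleW v := by
  obtain ⟨Φ, h3, -⟩ := transfer_exists (0 : ℂ) one_pos Complex.orthonormalBasisOneI.repr.symm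
  have hv' := h3.simple hv
  have h1 : ∀ i, (Φ ∘ v) i ≠ (Φ ∘ v) (finRotate n i) := fun i e => hv'.1 i (by
    rw [← e, insert_eq_of_mem (mem_insert _ _)]
    exact collinear_pair ℝ _ _)
  have h2 : Function.Injective (Φ ∘ v) := fun i j e => by_contra fun h => by
    obtain ⟨rfl, -⟩ | ⟨rfl, -⟩ := hv'.inter hn h (left_mem_segment ℝ _ _)
      (e ▸ left_mem_segment ℝ _ _)
    · exact h1 i e
    · exact h1 j e.symm
  have hW : SimpleW (Φ ∘ v) := ⟨h2, fun i j hij z hi hj => hv'.inter hn hij hi hj⟩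
  have := h3.symm.simpleW hW
  have e : Φ.symm ∘ Φ ∘ v = v := by funext i; simp
  rwa [e] at this

/-- For every `n ≥ 5`, every simple `n`-gon (convex or not) with the area of a regular `n`-gon has
first Dirichlet eigenvalue at least that of the regular `n`-gon, with equality only if it is
congruent to the regular one. -/
theorem result :
  ∀ n : ℕ, 5 ≤ n → ∀ r : ℝ, 0 < r → ∀ v : Fin n → EuclideanSpace ℝ (Fin 2),
    (∀ i : Fin n, ¬ Collinear ℝ ({v i, v (finRotate n i), v (finRotate n (finRotate n i))} :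
        Set (EuclideanSpace ℝ (Fin 2)))) →
    (∀ i j : Fin n, j ≠ i → j ≠ finRotate n i → i ≠ finRotate n j →
      Disjoint (segment ℝ (v i) (v (finRotate n i))) (segment ℝ (v j) (v (finRotate n j)))) →
    ∀ w : Fin n → EuclideanSpace ℝ (Fin 2),
    (∀ k : Fin n, w k = !₂[r * Real.cos (2 * Real.pi * ((k : ℕ) : ℝ) / (n : ℝ)),
                          r * Real.sin (2 * Real.pi * ((k : ℕ) : ℝ) / (n : ℝ))]) →
    ∀ P R : Set (EuclideanSpace ℝ (Fin 2)),
    P = {x | x ∉ (⋃ i : Fin n, segment ℝ (v i) (v (finRotate n i))) ∧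
          Bornology.IsBounded
            (connectedComponentIn (⋃ i : Fin n, segment ℝ (v i) (v (finRotate n i)))ᶜ x)} →
    R = {x | x ∉ (⋃ i : Fin n, segment ℝ (w i) (w (finRotate n i))) ∧
          Bornology.IsBounded
            (connectedComponentIn (⋃ i : Fin n, segment ℝ (w i) (w (finRotate n i)))ᶜ x)} →
    MeasureTheory.volume P = MeasureTheory.volume R →
    ∀ lP lR : ℝ,
    lP = sInf {q : ℝ | ∃ u : EuclideanSpace ℝ (Fin 2) → ℝ, ContDiff ℝ 1 u ∧
          HasCompactSupport u ∧ tsupport u ⊆ P ∧ u ≠ 0 ∧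
          q = (∫ x, ‖fderiv ℝ u x‖ ^ 2) / (∫ x, u x ^ 2)} →
    lR = sInf {q : ℝ | ∃ u : EuclideanSpace ℝ (Fin 2) → ℝ, ContDiff ℝ 1 u ∧
          HasCompactSupport u ∧ tsupport u ⊆ R ∧ u ≠ 0 ∧
          q = (∫ x, ‖fderiv ℝ u x‖ ^ 2) / (∫ x, u x ^ 2)} →
    lR ≤ lP ∧
      (lP = lR → ∃ e : EuclideanSpace ℝ (Fin 2) ≃ᵢ EuclideanSpace ℝ (Fin 2), e '' P = R) := by
  exact fun n hn r hr v h1 h2 w hw P R hP hR =>
    transferW n (PS.core_allW hn) n (by omega) le_rfl r hr v (simpleW_of (by omega) v ⟨h1, h2⟩)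
      w hw P R hP hR

end Pool.Agent.Work.MP_267827_an.Parked.Full
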